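import Pool.Agent.Helper47.SR.Goals

/-!
helper59: packet SR-M01 of helper47 (MP_0130f7_co): the levels 0 and 1.
-/

set_option autoImplicit false

open Finset

namespace Pool.Agent.Helper59.SR

open Pool.Agent.Helper47.SR

open Classical in
lemma Ew_eq {n : ℕ} (G : Grp n) (F : Finset (Finset (Fin n))) :
    Ew G F = ∑ γ ∈ (univ : Finset (Equiv.Perm (Fin n))).filter (fun γ => γ ∈ G ∧ γ ≠ 1),
      #(F.filter (fun A => mv γ A = A)) := by
  unfold Ew wt
  simp_rw [Finset.card_filter]
  rw [Finset.sum_comm]
  rw [Finset.sum_filter]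
  apply Finset.sum_congr rfl
  intro γ _
  by_cases h : γ ∈ G ∧ γ ≠ 1
  · rw [if_pos h]
    apply Finset.sum_congr rfl
    intro A _
    by_cases h2 : mv γ A = A
    · rw [if_pos ⟨h.1, h.2, h2⟩, if_pos h2]
    · rw [if_neg (fun h3 => h2 h3.2.2), if_neg h2]
  · rw [if_neg h]
    apply Finset.sum_eq_zero
    intro A _
    rw [if_neg (fun h3 => h ⟨h3.1, h3.2.1⟩)]

lemma W_eq {n : ℕ} (G : Grp n) (F : Finset (Finset (Fin n))) : W G F = #F + Ew G F := by
  unfold W Ew
  rw [Finset.sum_add_distrib]
  simp

lemma wt_singleton {n : ℕ} (G : Grp n) (hG : Semireg G) (u : Fin n) : wt G {u} = 0 := by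
  classical
  unfold wt
  apply Finset.card_eq_zero.mpr
  apply Finset.filter_eq_empty_iff.mpr
  rintro γ - ⟨h1, h2, h3⟩
  have h4 := hG γ h1 h2 u
  rw [mv, Finset.map_singleton, Finset.singleton_inj] at h3
  exact h4 h3

lemma W_lev1 {n : ℕ} (G : Grp n) (hG : Semireg G) (F : Finset (Finset (Fin n)))
    (hF : F ⊆ lev n 1) : W G F = #F := by
  unfold W
  rw [Finset.card_eq_sum_ones]
  apply Finset.sum_congr rfl
  intro A hA
  obtain ⟨-, h1⟩ := Finset.mem_powersetCard.mp (hF hA)
  obtain ⟨u, rfl⟩ := Finset.card_eq_one.mp h1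
  rw [wt_singleton G hG]

/-- points of a family of singletons -/
def pts {n : ℕ} (F : Finset (Finset (Fin n))) : Finset (Fin n) := univ.filter (fun u => {u} ∈ F)

lemma card_pts {n : ℕ} (F : Finset (Finset (Fin n))) (hF : F ⊆ lev n 1) : #F = #(pts F) := by
  have : F = (pts F).image (fun u => ({u} : Finset (Fin n))) := by
    ext A
    rw [Finset.mem_image]
    constructor
    · intro hA
      obtain ⟨-, h1⟩ := Finset.mem_powersetCard.mp (hF hA)
      obtain ⟨u, rfl⟩ := Finset.card_eq_one.mp h1
      exact ⟨u, by simp [pts, hA], rfl⟩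
    · rintro ⟨u, hu, rfl⟩
      simpa [pts] using hu
  conv_lhs => rw [this]
  apply Finset.card_image_of_injective
  intro a b h
  exact Finset.singleton_injective h

lemma dn1_eq {n : ℕ} (F : Finset (Finset (Fin n))) : dn 1 F = powersetCard 2 (pts F) := by
  ext B
  unfold dn
  rw [Finset.mem_filter, Finset.mem_powersetCard, Finset.mem_powersetCard]
  constructor
  · rintro ⟨⟨-, h2⟩, h3⟩
    refine ⟨?_, h2⟩
    intro u hu
    obtain ⟨a, b, hab, rfl⟩ := Finset.card_eq_two.mp h2
    simp only [pts, Finset.mem_filter, Finset.mem_univ, true_and]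
    rcases Finset.mem_insert.mp hu with h | h
    · subst h
      have := h3 b (by simp)
      have e : ({u, b} : Finset (Fin n)).erase b = {u} := by
        ext x
        simp only [Finset.mem_erase, Finset.mem_insert, Finset.mem_singleton]
        constructor
        · rintro ⟨h1, h2 | h2⟩
          · exact h2
          · exact absurd h2 h1
        · intro h; subst h; exact ⟨hab, Or.inl rfl⟩
      rwa [e] at this
    · rw [Finset.mem_singleton] at h
      subst h
      have := h3 a (by simp)
      have e : ({a, u} : Finset (Fin n)).erase a = {u} := by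
        ext x
        simp only [Finset.mem_erase, Finset.mem_insert, Finset.mem_singleton]
        constructor
        · rintro ⟨h1, h2 | h2⟩
          · exact absurd h2 h1
          · exact h2
        · intro h; subst h; exact ⟨hab.symm, Or.inr rfl⟩
      rwa [e] at this
  · rintro ⟨h1, h2⟩
    refine ⟨⟨Finset.subset_univ _, h2⟩, ?_⟩
    intro a ha
    have h3 : #(B.erase a) = 1 := by rw [Finset.card_erase_of_mem ha, h2]
    obtain ⟨v, hv⟩ := Finset.card_eq_one.mp h3
    rw [hv]
    have hvB : v ∈ B := by
      have : v ∈ B.erase a := by rw [hv]; simp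
      exact Finset.mem_of_mem_erase this
    simpa [pts] using h1 hvB

lemma up1_eq {n : ℕ} (F : Finset (Finset (Fin n))) :
    up 1 F = powersetCard 2 univ \ powersetCard 2 (pts F)ᶜ := by
  ext B
  unfold up
  rw [Finset.mem_filter, Finset.mem_sdiff]
  constructor
  · rintro ⟨h1, a, ha, h3⟩
    refine ⟨h1, ?_⟩
    intro h4
    obtain ⟨-, h2⟩ := Finset.mem_powersetCard.mp h1
    obtain ⟨h5, -⟩ := Finset.mem_powersetCard.mp h4
    have h3' : #(B.erase a) = 1 := by rw [Finset.card_erase_of_mem ha, h2]
    obtain ⟨v, hv⟩ := Finset.card_eq_one.mp h3'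
    rw [hv] at h3
    have hvB : v ∈ B := by
      have : v ∈ B.erase a := by rw [hv]; simp
      exact Finset.mem_of_mem_erase this
    have := h5 hvB
    rw [Finset.mem_compl] at this
    apply this
    simpa [pts] using h3
  · rintro ⟨h1, h2⟩
    refine ⟨h1, ?_⟩
    obtain ⟨-, h3⟩ := Finset.mem_powersetCard.mp h1
    have h4 : ¬ B ⊆ (pts F)ᶜ := fun h => h2 (Finset.mem_powersetCard.mpr ⟨h, h3⟩)
    obtain ⟨v, hvB, hv⟩ := Finset.not_subset.mp h4
    rw [Finset.mem_compl, not_not] at hv
    have hv' : {v} ∈ F := by simpa [pts] using hv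
    have h5 : #(B.erase v) = 1 := by rw [Finset.card_erase_of_mem hvB, h3]
    obtain ⟨a, ha⟩ := Finset.card_eq_one.mp h5
    have haB : a ∈ B.erase v := by rw [ha]; simp
    refine ⟨a, Finset.mem_of_mem_erase haB, ?_⟩
    have h6 : #(B.erase a) = 1 := by
      rw [Finset.card_erase_of_mem (Finset.mem_of_mem_erase haB), h3]
    obtain ⟨w, hw⟩ := Finset.card_eq_one.mp h6
    have hvw : v ∈ B.erase a := Finset.mem_erase.mpr ⟨(Finset.ne_of_mem_erase haB).symm, hvB⟩
    rw [hw, Finset.mem_singleton] at hvw
    rw [hw, ← hvw]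
    exact hv'

lemma mv_mem {n : ℕ} (γ : Equiv.Perm (Fin n)) (A : Finset (Fin n)) (h : mv γ A = A) (u : Fin n)
    (hu : u ∈ A) : γ u ∈ A := by
  rw [← h]
  exact Finset.mem_map_of_mem _ hu

lemma pts_inv {n : ℕ} (G : Grp n) (F : Finset (Finset (Fin n))) (hF : IsInv G F)
    (γ : Equiv.Perm (Fin n)) (hγ : γ ∈ G) (u : Fin n) (hu : u ∈ pts F) : γ u ∈ pts F := by
  simp only [pts, Finset.mem_filter, Finset.mem_univ, true_and] at hu ⊢
  have := hF γ hγ {u} hu
  rwa [mv, Finset.map_singleton] at this

/-- the comparison of the fixed pairs -/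
lemma fix_le {n : ℕ} (G : Grp n) (hG : Semireg G) (S Y : Finset (Finset (Fin n)))
    (hY : IsInv G Y) (hcard : #(pts Y) ≤ #(pts S))
    (γ : Equiv.Perm (Fin n)) (hγ : γ ∈ G) (hγ1 : γ ≠ 1) :
    #((dn 1 Y).filter (fun A => mv γ A = A)) ≤ #((up 1 S).filter (fun A => mv γ A = A)) := by
  rcases Finset.eq_empty_or_nonempty ((dn 1 Y).filter (fun A => mv γ A = A)) with he | ⟨A0, hA0⟩
  · rw [he]; simp
  have hfix := hG γ hγ hγ1
  -- structure of invariant pairs
  have hstr : ∀ A : Finset (Fin n), #A = 2 → mv γ A = A → ∀ u ∈ A,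
      A = {u, γ u} ∧ γ (γ u) = u := by
    intro A h2 hA u hu
    have h3 := mv_mem γ A hA u hu
    have h4 := mv_mem γ A hA (γ u) h3
    have h5 := hfix u
    have h6 : ({u, γ u} : Finset (Fin n)) = A := by
      apply Finset.eq_of_subset_of_card_le
      · intro x hx
        rcases Finset.mem_insert.mp hx with h | h
        · rw [h]; exact hu
        · rw [Finset.mem_singleton.mp h]; exact h3
      · rw [h2, Finset.card_pair h5.symm]
    refine ⟨h6.symm, ?_⟩
    rw [← h6] at h4
    rcases Finset.mem_insert.mp h4 with h | h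
    · exact h
    · exact absurd (Finset.mem_singleton.mp h) (hfix (γ u))
  -- γ is an involution
  have hinv : ∀ u, γ (γ u) = u := by
    rw [Finset.mem_filter, dn1_eq, Finset.mem_powersetCard] at hA0
    obtain ⟨⟨h1, h2⟩, h3⟩ := hA0
    have hne : A0.Nonempty := by
      rw [← Finset.card_pos, h2]; norm_num
    obtain ⟨u, hu⟩ := hne
    have h4 := (hstr A0 h2 h3 u hu).2
    have h5 : γ * γ = 1 := by
      by_contra hne1
      exact hG (γ * γ) (G.mul_mem hγ hγ) hne1 u (by simpa using h4)
    intro v
    have : (γ * γ) v = (1 : Equiv.Perm (Fin n)) v := by rw [h5]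
    simpa using this
  set P : Fin n → Finset (Fin n) := fun u => {u, γ u} with hP
  have hPmv : ∀ u, mv γ (P u) = P u := by
    intro u
    simp only [hP, mv]
    rw [Finset.map_insert, Finset.map_singleton]
    simp only [Equiv.coe_toEmbedding]
    rw [hinv u, Finset.pair_comm]
  have hPcard : ∀ u, #(P u) = 2 := fun u => Finset.card_pair (hfix u).symm
  have hPu : ∀ u, P (γ u) = P u := by
    intro u
    simp only [hP]
    rw [hinv u, Finset.pair_comm]
  -- upper bound
  have hup : 2 * #((dn 1 Y).filter (fun A => mv γ A = A)) ≤ #(pts Y) := by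
    have e : (dn 1 Y).filter (fun A => mv γ A = A) ⊆ (pts Y).image P := by
      intro A hA
      rw [Finset.mem_filter, dn1_eq, Finset.mem_powersetCard] at hA
      obtain ⟨⟨h1, h2⟩, h3⟩ := hA
      have hne : A.Nonempty := by
        rw [← Finset.card_pos, h2]; norm_num
      obtain ⟨u, hu⟩ := hne
      exact Finset.mem_image.mpr ⟨u, h1 hu, (hstr A h2 h3 u hu).1.symm⟩
    calc 2 * #((dn 1 Y).filter (fun A => mv γ A = A)) ≤ 2 * #((pts Y).image P) :=
          Nat.mul_le_mul_left _ (Finset.card_le_card e)
      _ ≤ #(pts Y) := by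
          apply Finset.mul_card_image_le_card
          intro A hA
          obtain ⟨u, hu, rfl⟩ := Finset.mem_image.mp hA
          rw [← Finset.card_pair (hfix u).symm]
          apply Finset.card_le_card
          intro x hx
          rw [Finset.mem_filter]
          rcases Finset.mem_insert.mp hx with h | h
          · rw [h]; exact ⟨hu, rfl⟩
          · rw [Finset.mem_singleton.mp h]
            exact ⟨pts_inv G Y hY γ hγ u hu, hPu u⟩
  have hlow : #(pts S) ≤ 2 * #((up 1 S).filter (fun A => mv γ A = A)) := by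
    have e : (pts S).image P ⊆ (up 1 S).filter (fun A => mv γ A = A) := by
      intro A hA
      obtain ⟨u, hu, rfl⟩ := Finset.mem_image.mp hA
      rw [Finset.mem_filter, up1_eq, Finset.mem_sdiff, Finset.mem_powersetCard,
        Finset.mem_powersetCard]
      refine ⟨⟨⟨Finset.subset_univ _, hPcard u⟩, ?_⟩, hPmv u⟩
      rintro ⟨h, -⟩
      have : u ∈ (pts S)ᶜ := h (by simp [hP])
      rw [Finset.mem_compl] at this
      exact this hu
    calc #(pts S) ≤ 2 * #((pts S).image P) := by
          apply Finset.card_le_mul_card_image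
          intro A hA
          rw [Finset.mem_image] at hA
          obtain ⟨u, hu, rfl⟩ := hA
          rw [← hPcard u]
          apply Finset.card_le_card
          intro x hx
          rw [Finset.mem_filter] at hx
          rw [← hx.2]
          simp [hP]
      _ ≤ 2 * #((up 1 S).filter (fun A => mv γ A = A)) :=
          Nat.mul_le_mul_left _ (Finset.card_le_card e)
  omega

lemma two_choose (a : ℕ) : 2 * (a.choose 2 : ℤ) = a * (a - 1) := by
  have h := Nat.triangle_succ
  induction a with
  | zero => simp
  | succ a ih =>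
    rw [Nat.choose_succ_succ' a 1, Nat.choose_one_right]
    push_cast
    linarith

lemma arith (n s y : ℕ) (hn : 4 ≤ n) (hs : s ≤ n) (hy : y < s) :
    y.choose 2 + (n - s).choose 2 + s ≤ n.choose 2 + y := by
  obtain ⟨a, rfl⟩ : ∃ a, n = a + s := ⟨n - s, by omega⟩
  have e : a + s - s = a := by omega
  rw [e]
  have h1 := two_choose y
  have h2 := two_choose a
  have h3 := two_choose (a + s)
  push_cast at h3
  zify
  have hyz : (y : ℤ) + 1 ≤ s := by exact_mod_cast hy
  have hnz : (4 : ℤ) ≤ a + s := by exact_mod_cast hn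
  have haz : (0 : ℤ) ≤ a := by positivity
  have hy0 : (0 : ℤ) ≤ y := by positivity
  rcases Nat.lt_or_ge s 3 with h | h
  · interval_cases s
    · omega
    · have : y = 0 := by omega
      subst this
      push_cast at *
      nlinarith
    · have : y ≤ 1 := by omega
      interval_cases y
      · push_cast at *
        nlinarith
      · push_cast at *
        nlinarith
  · have hs3 : (3 : ℤ) ≤ s := by exact_mod_cast h
    have h5 : (y : ℤ) * (y - 3) ≤ s * (s - 3) := by
      nlinarith [mul_nonneg (sub_nonneg.mpr hyz) hy0,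
        mul_nonneg (sub_nonneg.mpr hyz) (sub_nonneg.mpr hs3)]
    nlinarith [mul_nonneg haz (by linarith : (0 : ℤ) ≤ s)]

end Pool.Agent.Helper59.SR

namespace Pool.Agent.Helper47.SR

open Pool.Agent.Helper59.SR

/-- packet SR-M01 -/
theorem goal_M01 (hE23 : Goal_E23) : Goal_M01 := by
  intro n G hG hn
  constructor
  · intro S Y hS hY _ _ hlt
    have hl : lev n 0 = {∅} := by simp [lev]
    rw [hl, Finset.subset_singleton_iff] at hS hY
    have hS1 : S = {∅} := by
      rcases hS with h | h
      · subst h
        simp [W] at hlt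
      · exact h
    have hY1 : Y = ∅ := by
      rcases hY with h | h
      · exact h
      · rw [h, hS1] at hlt
        exact absurd hlt (lt_irrefl _)
    subst hS1 hY1
    have hd : dn 0 (∅ : Finset (Finset (Fin n))) = ∅ := by
      unfold dn
      apply Finset.filter_eq_empty_iff.mpr
      intro B hB h
      obtain ⟨-, h1⟩ := Finset.mem_powersetCard.mp hB
      obtain ⟨u, rfl⟩ := Finset.card_eq_one.mp h1
      exact absurd (h u (by simp)) (Finset.notMem_empty _)
    have hu : up 0 ({∅} : Finset (Finset (Fin n))) = lev n 1 := by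
      unfold up
      apply Finset.filter_eq_self.mpr
      intro B hB
      obtain ⟨-, h1⟩ := Finset.mem_powersetCard.mp hB
      obtain ⟨u, rfl⟩ := Finset.card_eq_one.mp h1
      exact ⟨u, by simp, by simp⟩
    rw [hd, hu, W_lev1 G hG _ (Finset.Subset.refl _)]
    have hc : #(lev n 1) = n := by simp [lev]
    rw [hc]
    have hg : Nat.card G ≤ n := (hE23 n G hG (by omega)).2.2
    have hW0 : W G (∅ : Finset (Finset (Fin n))) = 0 := by simp [W]
    have hW1 : W G ({∅} : Finset (Finset (Fin n))) = Nat.card G := by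
      classical
      unfold W wt
      rw [Finset.sum_singleton]
      have h1 : Nat.card G = #((univ : Finset (Equiv.Perm (Fin n))).filter (fun γ => γ ∈ G)) := by
        rw [Nat.card_eq_fintype_card]
        exact Fintype.card_subtype _
      rw [h1]
      have h2 : (univ : Finset (Equiv.Perm (Fin n))).filter (fun γ => γ ∈ G)
          = insert 1 ((univ : Finset (Equiv.Perm (Fin n))).filter
            (fun γ => γ ∈ G ∧ γ ≠ 1 ∧ mv γ ∅ = ∅)) := by
        ext γ
        simp only [Finset.mem_filter, Finset.mem_univ, true_and, Finset.mem_insert, mv,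
          Finset.map_empty, and_true]
        constructor
        · intro h
          by_cases h3 : γ = 1
          · left; exact h3
          · right; exact ⟨h, h3⟩
        · rintro (h | h)
          · rw [h]; exact G.one_mem
          · exact h.1
      rw [h2, Finset.card_insert_of_notMem (by simp), add_comm]
    rw [hW0, hW1]
    omega
  · intro S Y hS hY hSi hYi hlt
    rw [W_lev1 G hG S hS, W_lev1 G hG Y hY] at hlt ⊢
    rw [card_pts S hS, card_pts Y hY] at hlt ⊢
    rw [W_eq, W_eq]
    have h1 : Ew G (dn 1 Y) ≤ Ew G (up 1 S) := by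
      classical
      rw [Ew_eq, Ew_eq]
      apply Finset.sum_le_sum
      intro γ hγ
      rw [Finset.mem_filter] at hγ
      have := fix_le G hG S Y hYi hlt.le γ hγ.2.1 hγ.2.2
      convert this
    have h2 : #(dn 1 Y) + #(pts S) ≤ #(up 1 S) + #(pts Y) := by
      rw [dn1_eq, up1_eq, Finset.card_sdiff_of_subset
        (Finset.powersetCard_mono (Finset.subset_univ _)), Finset.card_powersetCard,
        Finset.card_powersetCard, Finset.card_powersetCard, Finset.card_compl, Finset.card_univ,
        Fintype.card_fin]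
      have hs : #(pts S) ≤ n := by
        have := Finset.card_le_univ (pts S)
        simpa using this
      have h3 := arith n (#(pts S)) (#(pts Y)) hn hs hlt
      have h4 : (n - #(pts S)).choose 2 ≤ n.choose 2 := Nat.choose_le_choose _ (by omega)
      omega
    omega

end Pool.Agent.Helper47.SR
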