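import Pool.Agent.Helper47.SR.Goals

/-!
helper59: packet SR-TRADE of helper47 (MP_0130f7_co): support of a trade.
-/

set_option autoImplicit false

open Finset

namespace Pool.Agent.Helper59.SR

open Pool.Agent.Helper47.SR

/-- dual Reed-Muller bound -/
lemma rm_bound {α : Type} [DecidableEq α] (V : Finset α) :
    ∀ (T : ℕ) (f : Finset α → ℝ), (∀ A, f A ≠ 0 → A ⊆ V) → (∃ A, f A ≠ 0) →
    (∀ C : Finset α, #C < T → ∑ B ∈ V.powerset.filter (fun B => C ⊆ B), f B = 0) →
    2 ^ T ≤ #(V.powerset.filter (fun B => f B ≠ 0)) := by
  induction V using Finset.induction_on with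
  | empty =>
    intro T f hs hne hz
    obtain ⟨A, hA⟩ := hne
    have hA0 : A = ∅ := Finset.subset_empty.mp (hs A hA)
    subst hA0
    rcases Nat.eq_zero_or_pos T with hT | hT
    · subst hT
      rw [pow_zero]
      apply Finset.card_pos.mpr
      exact ⟨∅, by simp [hA]⟩
    · exfalso
      have := hz ∅ (by simpa using hT)
      simp at this
      exact hA this
  | insert x V' hx ih =>
    intro T f hs hne hz
    rcases T with _ | T
    · obtain ⟨A, hA⟩ := hne
      rw [pow_zero]
      apply Finset.card_pos.mpr
      refine ⟨A, ?_⟩
      rw [Finset.mem_filter, Finset.mem_powerset]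
      exact ⟨hs A hA, hA⟩
    set Q : Finset α → ℝ := fun A => if x ∈ A then 0 else f (insert x A) with hQ
    set R : Finset α → ℝ := fun A => if x ∈ A then 0 else f A with hR
    have hQs : ∀ A, Q A ≠ 0 → A ⊆ V' := by
      intro A hA
      simp only [hQ] at hA
      by_cases hxA : x ∈ A
      · rw [if_pos hxA] at hA; exact absurd rfl hA
      · rw [if_neg hxA] at hA
        intro a ha
        have h1 := hs _ hA (Finset.mem_insert_of_mem ha)
        rcases Finset.mem_insert.mp h1 with h2 | h2
        · exact absurd (h2 ▸ ha) hxA
        · exact h2
    have hRs : ∀ A, R A ≠ 0 → A ⊆ V' := by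
      intro A hA
      simp only [hR] at hA
      by_cases hxA : x ∈ A
      · rw [if_pos hxA] at hA; exact absurd rfl hA
      · rw [if_neg hxA] at hA
        intro a ha
        have h1 := hs _ hA ha
        rcases Finset.mem_insert.mp h1 with h2 | h2
        · exact absurd (h2 ▸ ha) hxA
        · exact h2
    have hxmem : ∀ A ∈ V'.powerset, x ∉ A := by
      intro A hA h
      exact hx (Finset.mem_powerset.mp hA h)
    have hinj : Set.InjOn (insert x) (V'.powerset : Set (Finset α)) := by
      intro A hA B hB hAB
      have h1 : (insert x A).erase x = (insert x B).erase x := by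
        have : insert x A = insert x B := hAB
        rw [this]
      rwa [Finset.erase_insert (hxmem A hA), Finset.erase_insert (hxmem B hB)] at h1
    have hdisj : Disjoint V'.powerset (V'.powerset.image (insert x)) := by
      rw [Finset.disjoint_left]
      intro A hA hA2
      obtain ⟨B, -, hB⟩ := Finset.mem_image.mp hA2
      apply hxmem A hA
      rw [← hB]
      exact Finset.mem_insert_self _ _
    -- sums
    have hsplit : ∀ C : Finset α,
        ∑ B ∈ (insert x V').powerset.filter (fun B => C ⊆ B), f B
        = ∑ B ∈ V'.powerset.filter (fun B => C ⊆ B), R B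
          + ∑ B ∈ V'.powerset.filter (fun B => C ⊆ insert x B), Q B := by
      intro C
      rw [Finset.powerset_insert, Finset.filter_union,
        Finset.sum_union (Finset.disjoint_filter_filter hdisj)]
      congr 1
      · apply Finset.sum_congr rfl
        intro B hB
        have := hxmem B (Finset.mem_of_mem_filter B hB)
        simp only [hR, if_neg this]
      · rw [Finset.filter_image, Finset.sum_image]
        · apply Finset.sum_congr rfl
          intro B hB
          have := hxmem B (Finset.mem_of_mem_filter B hB)
          simp only [hQ, if_neg this]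
        · intro A hA B hB hAB
          exact hinj (Finset.mem_of_mem_filter A hA) (Finset.mem_of_mem_filter B hB) hAB
    have hcard : #((insert x V').powerset.filter (fun B => f B ≠ 0))
        = #(V'.powerset.filter (fun B => R B ≠ 0)) + #(V'.powerset.filter (fun B => Q B ≠ 0)) := by
      rw [Finset.powerset_insert, Finset.filter_union,
        Finset.card_union_of_disjoint (Finset.disjoint_filter_filter hdisj)]
      congr 1
      · congr 1
        apply Finset.filter_congr
        intro B hB
        have := hxmem B hB
        simp only [hR, if_neg this]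
      · rw [Finset.filter_image, Finset.card_image_of_injOn]
        · congr 1
          apply Finset.filter_congr
          intro B hB
          have := hxmem B hB
          simp only [hQ, if_neg this]
        · intro A hA B hB hAB
          exact hinj (Finset.mem_of_mem_filter A hA) (Finset.mem_of_mem_filter B hB) hAB
    have hfQR : (∃ A, Q A ≠ 0) ∨ (∃ A, R A ≠ 0) := by
      obtain ⟨A, hA⟩ := hne
      by_cases hxA : x ∈ A
      · left
        refine ⟨A.erase x, ?_⟩
        simp only [hQ]
        rw [if_neg (Finset.notMem_erase x A), Finset.insert_erase hxA]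
        exact hA
      · right
        refine ⟨A, ?_⟩
        simp only [hR]
        rw [if_neg hxA]
        exact hA
    -- sums for C not containing x
    have hC1 : ∀ C : Finset α, x ∉ C → #C < T + 1 →
        ∑ B ∈ V'.powerset.filter (fun B => C ⊆ B), R B
          + ∑ B ∈ V'.powerset.filter (fun B => C ⊆ B), Q B = 0 := by
      intro C hC hcc
      have h1 := hz C hcc
      rw [hsplit C] at h1
      have h2 : V'.powerset.filter (fun B => C ⊆ insert x B)
          = V'.powerset.filter (fun B => C ⊆ B) := by
        apply Finset.filter_congr
        intro B _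
        constructor
        · intro h a ha
          rcases Finset.mem_insert.mp (h ha) with h3 | h3
          · exact absurd (h3 ▸ ha) hC
          · exact h3
        · intro h
          exact h.trans (Finset.subset_insert _ _)
      rwa [h2] at h1
    have hxC : ∀ C : Finset α, x ∈ C →
        V'.powerset.filter (fun B => C ⊆ B) = ∅ := by
      intro C hC
      apply Finset.filter_eq_empty_iff.mpr
      intro B hB h
      exact hxmem B hB (h hC)
    have hC2 : ∀ C : Finset α, #C < T →
        ∑ B ∈ V'.powerset.filter (fun B => C ⊆ B), Q B = 0 := by
      intro C hcc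
      by_cases hC : x ∈ C
      · rw [hxC C hC]; simp
      have h0 : #(insert x C) < T + 1 := by
        rw [Finset.card_insert_of_notMem hC]; omega
      have h1 := hz (insert x C) h0
      rw [hsplit] at h1
      rw [hxC (insert x C) (Finset.mem_insert_self _ _)] at h1
      rw [Finset.sum_empty, zero_add] at h1
      have h2 : V'.powerset.filter (fun B => insert x C ⊆ insert x B)
          = V'.powerset.filter (fun B => C ⊆ B) := by
        apply Finset.filter_congr
        intro B _
        constructor
        · intro h a ha
          rcases Finset.mem_insert.mp (h (Finset.mem_insert_of_mem ha)) with h3 | h3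
          · exact absurd (h3 ▸ ha) hC
          · exact h3
        · intro h
          exact Finset.insert_subset_insert _ h
      rwa [h2] at h1
    have hC3 : ∀ C : Finset α, #C < T →
        ∑ B ∈ V'.powerset.filter (fun B => C ⊆ B), R B = 0 := by
      intro C hcc
      by_cases hC : x ∈ C
      · rw [hxC C hC]; simp
      have h1 := hC1 C hC (by omega)
      rw [hC2 C hcc, add_zero] at h1
      exact h1
    by_cases hQ0 : ∃ A, Q A ≠ 0
    · by_cases hR0 : ∃ A, R A ≠ 0
      · have a1 := ih T Q hQs hQ0 hC2
        have a2 := ih T R hRs hR0 hC3
        rw [hcard, pow_succ]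
        omega
      · have hR0' : ∀ A, R A = 0 := by
          intro A
          by_contra h
          exact hR0 ⟨A, h⟩
        have a1 := ih (T + 1) Q hQs hQ0 (by
          intro C hcc
          by_cases hC : x ∈ C
          · rw [hxC C hC]; simp
          have h1 := hC1 C hC hcc
          have h2 : ∑ B ∈ V'.powerset.filter (fun B => C ⊆ B), R B = 0 :=
            Finset.sum_eq_zero (fun B _ => hR0' B)
          rw [h2, zero_add] at h1
          exact h1)
        rw [hcard]
        omega
    · have hR0 : ∃ A, R A ≠ 0 := by
        rcases hfQR with h | h
        · exact absurd h hQ0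
        · exact h
      have hQ0' : ∀ A, Q A = 0 := by
        intro A
        by_contra h
        exact hQ0 ⟨A, h⟩
      have a1 := ih (T + 1) R hRs hR0 (by
          intro C hcc
          by_cases hC : x ∈ C
          · rw [hxC C hC]; simp
          have h1 := hC1 C hC hcc
          have h2 : ∑ B ∈ V'.powerset.filter (fun B => C ⊆ B), Q B = 0 :=
            Finset.sum_eq_zero (fun B _ => hQ0' B)
          rw [h2, add_zero] at h1
          exact h1)
      rw [hcard]
      omega

end Pool.Agent.Helper59.SR

namespace Pool.Agent.Helper47.SR

open Pool.Agent.Helper59.SR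

/-- packet SR-TRADE -/
theorem goal_TRADE : Goal_TRADE := by
  intro α _ V k s f hs hsupp hne hz
  -- the sums g(C)
  have hlow : ∀ j : ℕ, ∀ C : Finset α, #C + s + j = k →
      ∑ B ∈ (powersetCard k V).filter (fun B => C ⊆ B), f B = 0 := by
    intro j
    induction j with
    | zero =>
      intro C hC
      by_cases hCV : C ⊆ V
      · exact hz C hCV (by omega)
      · have : (powersetCard k V).filter (fun B => C ⊆ B) = ∅ := by
          apply Finset.filter_eq_empty_iff.mpr
          intro B hB h
          exact hCV (h.trans (Finset.mem_powersetCard.mp hB).1)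
        rw [this]; simp
    | succ j ih =>
      intro C hC
      have h1 : ∑ y ∈ V \ C,
          ∑ B ∈ (powersetCard k V).filter (fun B => insert y C ⊆ B), f B = 0 := by
        apply Finset.sum_eq_zero
        intro y hy
        apply ih
        rw [Finset.card_insert_of_notMem (Finset.mem_sdiff.mp hy).2]
        omega
      have h2 : ∑ y ∈ V \ C,
          ∑ B ∈ (powersetCard k V).filter (fun B => insert y C ⊆ B), f B
          = ∑ B ∈ (powersetCard k V).filter (fun B => C ⊆ B), ((k - #C : ℕ) : ℝ) * f B := by
        have e1 : ∀ y ∈ V \ C,
            ∑ B ∈ (powersetCard k V).filter (fun B => insert y C ⊆ B), f B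
            = ∑ B ∈ (powersetCard k V).filter (fun B => C ⊆ B), if y ∈ B then f B else 0 := by
          intro y hy
          rw [← Finset.sum_filter, Finset.filter_filter]
          apply Finset.sum_congr _ (fun _ _ => rfl)
          apply Finset.filter_congr
          intro B _
          rw [Finset.insert_subset_iff]
          tauto
        rw [Finset.sum_congr rfl e1, Finset.sum_comm]
        apply Finset.sum_congr rfl
        intro B hB
        rw [Finset.mem_filter, Finset.mem_powersetCard] at hB
        rw [← Finset.sum_filter, Finset.sum_const, nsmul_eq_mul]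
        congr 2
        have : (V \ C).filter (fun y => y ∈ B) = B \ C := by
          ext y
          simp only [Finset.mem_filter, Finset.mem_sdiff]
          constructor
          · rintro ⟨⟨-, h⟩, h'⟩; exact ⟨h', h⟩
          · rintro ⟨h, h'⟩; exact ⟨⟨hB.1.1 h, h'⟩, h⟩
        rw [this, Finset.card_sdiff_of_subset hB.2, hB.1.2]
      rw [h2, ← Finset.mul_sum] at h1
      have h3 : ((k - #C : ℕ) : ℝ) ≠ 0 := by
        have : 0 < k - #C := by omega
        exact_mod_cast this.ne'
      exact (mul_eq_zero.mp h1).resolve_left h3
  have hmain := rm_bound V (k + 1 - s) f (fun A hA => (hsupp A hA).1) hne (by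
    intro C hC
    have e : ∑ B ∈ (powersetCard k V).filter (fun B => C ⊆ B), f B
        = ∑ B ∈ V.powerset.filter (fun B => C ⊆ B), f B := by
      apply Finset.sum_subset
      · intro B hB
        rw [Finset.mem_filter, Finset.mem_powersetCard] at hB
        rw [Finset.mem_filter, Finset.mem_powerset]
        exact ⟨hB.1.1, hB.2⟩
      · intro B hB hB2
        rw [Finset.mem_filter, Finset.mem_powerset] at hB
        by_contra h
        apply hB2
        rw [Finset.mem_filter, Finset.mem_powersetCard]
        exact ⟨hsupp B h, hB.2⟩
    rw [← e]
    exact hlow (k - s - #C) C (by omega))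
  refine hmain.trans (le_of_eq ?_)
  congr 1
  ext B
  rw [Finset.mem_filter, Finset.mem_filter, Finset.mem_powerset, Finset.mem_powersetCard]
  constructor
  · rintro ⟨-, h⟩; exact ⟨hsupp B h, h⟩
  · rintro ⟨h, h'⟩; exact ⟨h.1, h'⟩

end Pool.Agent.Helper47.SR
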